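import Pool.Agent.Lib.MP_6bc78b_nt.MS.L.Iface

/-! Project MS (MP_6bc78b_nt), Part IIIa, module UA: the four kernel sums. -/

set_option autoImplicit false

open Filter Topology ArithmeticFunction MeasureTheory

namespace Pool.Agent.Lib.MP_6bc78b_nt.MS.L.H38

open Pool.Agent.Lib.MP_6bc78b_nt.MS Pool.Agent.Lib.MP_6bc78b_nt.MS.L

theorem fj_succ (T : ℝ) (j : ℕ) (x : ℝ) : Fj T (j + 1) x = Fj T j x * Real.log x := by
  unfold Fj
  ring

/-- `∫ F_j (a + log x) = a J_j + J_{j+1}` -/
theorem int_one (hJ : JnStatement) {T : ℝ} (hT : 1 < T) (j : ℕ) (a : ℝ) :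
    ∫ x in Set.Ioi (0 : ℝ), Fj T j x * (a + Real.log x) = a * Jn T j + Jn T (j + 1) := by
  have h1 : (fun x : ℝ => Fj T j x * (a + Real.log x)) =
      fun x : ℝ => a * Fj T j x + Fj T (j + 1) x := by
    funext x
    rw [fj_succ]
    ring
  rw [h1, integral_add ((hJ.1 j T hT).const_mul a) (hJ.1 (j + 1) T hT), integral_const_mul]
  rfl

/-- `∫ F_0 (log x)^2` -/
theorem int_two (hJ : JnStatement) {T : ℝ} (hT : 1 < T) (a b c : ℝ) :
    ∫ x in Set.Ioi (0 : ℝ), Fj T 0 x * (a + b * Real.log x + c * Real.log x ^ 2) =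
      a * Jn T 0 + b * Jn T 1 + c * Jn T 2 := by
  have h1 : (fun x : ℝ => Fj T 0 x * (a + b * Real.log x + c * Real.log x ^ 2)) =
      fun x : ℝ => (a * Fj T 0 x + b * Fj T 1 x) + c * Fj T 2 x := by
    funext x
    unfold Fj
    ring
  have i0 := (hJ.1 0 T hT).const_mul a
  have i1 := (hJ.1 1 T hT).const_mul b
  have i2 := (hJ.1 2 T hT).const_mul c
  have i01 : IntegrableOn (fun x : ℝ => a * Fj T 0 x + b * Fj T 1 x) (Set.Ioi 0) := i0.add i1
  rw [h1, integral_add i01 i2, integral_add i0 i1,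
    integral_const_mul, integral_const_mul, integral_const_mul]
  rfl

theorem bound_le {K C L X : ℝ} (hK : 0 < K) (hL : 0 ≤ L) (hX : 0 ≤ X) :
    K * C * L * X ≤ K * (|C| + 1) * L * X := by
  apply mul_le_mul_of_nonneg_right _ hX
  apply mul_le_mul_of_nonneg_right _ hL
  apply mul_le_mul_of_nonneg_left _ hK.le
  have := le_abs_self C
  linarith

theorem ua (κ1 κ0 C : ℝ) (hU : UStatement) (hA : AsyStatement) (hJ : JnStatement)
    (hS : SumAsy (fun n => (La * lg) n) (PL κ1 κ0) C) : UaStatement κ1 κ0 := by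
  obtain ⟨C0, h1, h2, h3⟩ := hA
  refine ⟨?_, ?_, ?_, ?_⟩
  · intro j
    obtain ⟨K, hK, hev⟩ := hU j
    refine ⟨K * (|C0| + 1), by positivity, ?_⟩
    filter_upwards [hev, eventually_gt_atTop 1] with T hT hT1 ρ hρ
    have hl : 0 ≤ Real.log T ^ j := pow_nonneg (Real.log_nonneg hT1.le) j
    have h := hT _ _ _ h1 ρ hρ
    have e : ∫ x in Set.Ioi (0 : ℝ), Fj T j x *
        ((1 : Polynomial ℝ) + Polynomial.derivative 1).eval (Real.log ρ + Real.log x) =
        Jn T j := by
      unfold Jn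
      congr 1
      funext x
      simp
    rw [e] at h
    exact h.trans (bound_le hK hl (by positivity))
  · intro j
    obtain ⟨K, hK, hev⟩ := hU j
    refine ⟨K * (|C0| + 1), by positivity, ?_⟩
    filter_upwards [hev, eventually_gt_atTop 1] with T hT hT1 ρ hρ
    have hl : 0 ≤ Real.log T ^ j := pow_nonneg (Real.log_nonneg hT1.le) j
    have h := hT _ _ _ h2 ρ hρ
    have e : ∫ x in Set.Ioi (0 : ℝ), Fj T j x *
        ((Polynomial.X - 1 : Polynomial ℝ) + Polynomial.derivative (Polynomial.X - 1)).eval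
          (Real.log ρ + Real.log x) = Real.log ρ * Jn T j + Jn T (j + 1) := by
      rw [← int_one hJ hT1]
      congr 1
      funext x
      simp
    rw [e] at h
    exact h.trans (bound_le hK hl (by positivity))
  · obtain ⟨K, hK, hev⟩ := hU 0
    refine ⟨K * (|C| + 1), by positivity, ?_⟩
    filter_upwards [hev, eventually_gt_atTop 1] with T hT hT1 ρ hρ
    have h := hT _ _ _ hS ρ hρ
    have e : ∫ x in Set.Ioi (0 : ℝ), Fj T 0 x *
        (PL κ1 κ0 + Polynomial.derivative (PL κ1 κ0)).eval (Real.log ρ + Real.log x) =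
        Jn T 0 * (Real.log ρ ^ 2 / 2 + κ1 * Real.log ρ + κ0) +
        Jn T 1 * (Real.log ρ + κ1) + Jn T 2 / 2 := by
      have h4 := int_two hJ hT1 (Real.log ρ ^ 2 / 2 + κ1 * Real.log ρ + κ0) (Real.log ρ + κ1)
        (1 / 2)
      have e2 : (fun x : ℝ => Fj T 0 x *
          (PL κ1 κ0 + Polynomial.derivative (PL κ1 κ0)).eval (Real.log ρ + Real.log x)) =
          fun x : ℝ => Fj T 0 x * ((Real.log ρ ^ 2 / 2 + κ1 * Real.log ρ + κ0) +
            (Real.log ρ + κ1) * Real.log x + 1 / 2 * Real.log x ^ 2) := by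
        funext x
        unfold PL
        simp only [Polynomial.derivative_add, Polynomial.derivative_mul, Polynomial.derivative_C,
          Polynomial.derivative_X_pow, Polynomial.derivative_X, Polynomial.eval_add,
          Polynomial.eval_mul, Polynomial.eval_C, Polynomial.eval_pow, Polynomial.eval_X,
          Polynomial.eval_zero, Polynomial.eval_one]
        push_cast
        ring_nf
      rw [e2, h4]
      ring
    rw [e] at h
    have h5 := h.trans (bound_le (L := Real.log T ^ 0) hK (by simp)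
      (Real.rpow_nonneg (by positivity) _))
    simpa using h5
  · obtain ⟨K, hK, hev⟩ := hU 0
    refine ⟨K * (|C0| + 1), by positivity, ?_⟩
    filter_upwards [hev, eventually_gt_atTop 1] with T hT hT1 p hp ρ hρ
    have h := hT _ _ _ (h3 p hp) ρ hρ
    have e : ∫ x in Set.Ioi (0 : ℝ), Fj T 0 x *
        ((Polynomial.C (1 / ((p : ℝ) - 1)) : Polynomial ℝ) +
          Polynomial.derivative (Polynomial.C (1 / ((p : ℝ) - 1)))).eval
          (Real.log ρ + Real.log x) = Jn T 0 / ((p : ℝ) - 1) := by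
      have e2 : (fun x : ℝ => Fj T 0 x *
          ((Polynomial.C (1 / ((p : ℝ) - 1)) : Polynomial ℝ) +
          Polynomial.derivative (Polynomial.C (1 / ((p : ℝ) - 1)))).eval
          (Real.log ρ + Real.log x)) = fun x : ℝ => Fj T 0 x * (1 / ((p : ℝ) - 1)) := by
        funext x
        simp
      rw [e2, integral_mul_const]
      unfold Jn
      ring
    rw [e] at h
    have h5 := h.trans (bound_le (L := Real.log T ^ 0) hK (by simp)
      (Real.rpow_nonneg (by positivity) _))
    simpa using h5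

end Pool.Agent.Lib.MP_6bc78b_nt.MS.L.H38
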